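import Pool.Agent.Lib_helper41.KSNF.BIL
import Pool.Agent.Lib_helper41.LVBF.STO
import Pool.Agent.Lib_helper41.LVBF.TRA
import Pool.Agent.Lib_helper41.LVBF.TRN
import Pool.Agent.Lib_helper68.KSLF.FIA
import Pool.Agent.Lib_helper41.TK.W.FA
import Pool.Agent.Lib_helper41.TK.W.FB
import Pool.Agent.Lib_helper41.TK.W.FC

/-! TK, block FD: the first moment over the even forms. -/

set_option autoImplicit false

namespace Pool.Agent.TK

open Pool.Agent.LEV Pool.Agent.LVB Pool.Agent.KSL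
open Pool.Agent.LK (PQ)
open Pool.Agent.FG61 (mu phi cc ff AA Lam)
open Complex MeasureTheory Filter Topology UpperHalfPlane ModularGroup ProbabilityTheory
open scoped MatrixGroups Modular ENNReal ModularForm ComplexConjugate ContDiff

/-- powers of `N` exceed any constant -/
theorem fd_large {θ : ℝ} (hθ : 0 < θ) (B : ℝ) : ∃ M₀ : ℕ, ∀ N : ℕ, M₀ ≤ N →
    B ≤ (N : ℝ) ^ θ := by
  have h1 : Tendsto (fun n : ℕ => (n : ℝ) ^ θ) atTop atTop :=
    (tendsto_rpow_atTop hθ).comp tendsto_natCast_atTop_atTop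
  exact Filter.eventually_atTop.mp (h1.eventually_ge_atTop B)

/-- a fixed polynomial has bounded moments -/
theorem fd_four {N X : ℕ} (hX : X < N) {s : ℕ → ℝ} {P : Measure (ℕ → ℝ)} (hP : IsST (Pr N) P) :
    ∫ x, (∑ m ∈ Finset.Icc 1 X, s m * Um m x) ^ 4 ∂P ≤
      (∑ m ∈ Finset.Icc 1 X, |s m| * m) ^ 4 := by
  have := hP.prob
  have h1 : ∀ᵐ x ∂P, (∑ m ∈ Finset.Icc 1 X, s m * Um m x) ^ 4 ≤
      (∑ m ∈ Finset.Icc 1 X, |s m| * m) ^ 4 := by
    filter_upwards [hP.bdd] with x hx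
    have h2 : |∑ m ∈ Finset.Icc 1 X, s m * Um m x| ≤ ∑ m ∈ Finset.Icc 1 X, |s m| * m := by
      refine (Finset.abs_sum_le_sum_abs _ _).trans (Finset.sum_le_sum fun m hm => ?_)
      obtain ⟨hm1, hm2⟩ := Finset.mem_Icc.mp hm
      rw [abs_mul]
      refine mul_le_mul_of_nonneg_left (TRN_um (by omega) fun p hp => hx p ?_) (abs_nonneg _)
      exact TRN_pf (lt_of_le_of_lt hm2 hX) hp
    have h3 := pow_le_pow_left₀ (abs_nonneg _) h2 4
    calc (∑ m ∈ Finset.Icc 1 X, s m * Um m x) ^ 4 =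
        |∑ m ∈ Finset.Icc 1 X, s m * Um m x| ^ 4 := by
          rw [← abs_pow, abs_of_nonneg (by positivity)]
      _ ≤ _ := h3
  calc ∫ x, (∑ m ∈ Finset.Icc 1 X, s m * Um m x) ^ 4 ∂P ≤
      ∫ _x, (∑ m ∈ Finset.Icc 1 X, |s m| * m) ^ 4 ∂P :=
        integral_mono_of_nonneg (Filter.Eventually.of_forall fun x => by positivity)
          (integrable_const _) h1
    _ = _ := by simp

/-- the length of the long factor -/
theorem fd_len {δ κ : ℝ} (h0 : 0 < δ) (h1 : δ < 1 / 4) (hκ0 : 0 < κ) (hκ : κ ≤ δ / 24) {N q X : ℕ}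
    (hN : 1 ≤ N) (hq : (q : ℝ) ≤ (N : ℝ) ^ κ) (hX : (X : ℝ) ≤ (N : ℝ) ^ κ) :
    ((X * X1 δ (N * q ^ 2) : ℕ) : ℝ) ≤ (N : ℝ) ^ (1 - δ / 4) := by
  have hN0 : (0 : ℝ) < N := by exact_mod_cast hN
  have hN1 : (1 : ℝ) ≤ N := by exact_mod_cast hN
  have h2 : ((X1 δ (N * q ^ 2) : ℕ) : ℝ) ≤ ((N : ℝ) * (q : ℝ) ^ 2) ^ (1 - δ / 2) := by
    unfold X1
    refine (Nat.floor_le (by positivity)).trans ?_
    push_cast
    exact le_rfl
  have h3 : (N : ℝ) * (q : ℝ) ^ 2 ≤ (N : ℝ) ^ (1 + 2 * κ) := by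
    calc (N : ℝ) * (q : ℝ) ^ 2 ≤ N * ((N : ℝ) ^ κ) ^ 2 := by gcongr
      _ = (N : ℝ) ^ (1 + 2 * κ) := by
        rw [← Real.rpow_natCast ((N : ℝ) ^ κ) 2, ← Real.rpow_mul hN0.le, Real.rpow_add hN0,
          Real.rpow_one]
        congr 2
        push_cast
        ring
  have h4 : ((N : ℝ) * (q : ℝ) ^ 2) ^ (1 - δ / 2) ≤ (N : ℝ) ^ ((1 + 2 * κ) * (1 - δ / 2)) := by
    rw [Real.rpow_mul hN0.le]
    exact Real.rpow_le_rpow (by positivity) h3 (by linarith)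
  push_cast
  calc (X : ℝ) * (X1 δ (N * q ^ 2) : ℕ) ≤ (N : ℝ) ^ κ * (N : ℝ) ^ ((1 + 2 * κ) * (1 - δ / 2)) := by
        apply mul_le_mul hX (h2.trans h4) (by positivity) (by positivity)
    _ = (N : ℝ) ^ (κ + (1 + 2 * κ) * (1 - δ / 2)) := by rw [Real.rpow_add hN0]
    _ ≤ (N : ℝ) ^ (1 - δ / 4) := by
        apply Real.rpow_le_rpow_of_exponent_le hN1
        nlinarith

/-- the first moment over the even forms -/
theorem first_momentC {δ : ℝ} (h0 : 0 < δ) (h1 : δ < 1 / 4) {ε : ℝ} (hε : 0 < ε) (C₀ : ℝ)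
    (X : ℕ) (s : ℕ → ℝ) (hs : ∀ m, s m ≠ 0 → 1 ≤ m ∧ m ≤ X) : ∃ ε₁ κ : ℝ, 0 < ε₁ ∧ 0 < κ ∧
    ∀ ε₂ : ℝ, 0 < ε₂ → ε₂ ≤ ε₁ → ∃ (κ₁ : ℝ) (N₀ : ℕ), 0 < κ₁ ∧ ∀ (N : ℕ) [Fact N.Prime],
    N₀ ≤ N → ∀ {ι : Type} [Fintype ι] (f : ι → S2 N), AllNew f →
    ∀ (q : ℕ) [NeZero q] (χ : DirichletCharacter ℂ q), PQ χ → (q : ℝ) ≤ (N : ℝ) ^ κ₁ →
    ∀ a : ℕ → ℕ → ℝ,
    (∀ k ∈ QI q X, ShC q (zz (N * q ^ 2)) (KA ε₂ (N * q ^ 2)) (a k) ∧
      cnC q (zz (N * q ^ 2)) (KA ε₂ (N * q ^ 2)) (a k) ≤ C₀ ∧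
      cdC q (zz (N * q ^ 2)) (KA ε₂ (N * q ^ 2)) (a k) (sX χ s k) ≤ κ) →
      ∑ m ∈ Finset.Icc 1 X, s m ^ 2 - ε ≤
        ∑ i, om (f i) * ((1 + se (f i)) / 2 *
          ((4 * Real.pi * gl (f i) (QC q δ ε₂ (N * q ^ 2) X)
              (tw χ (vv q δ ε₂ (N * q ^ 2) X a))).re *
            ∑ m ∈ Finset.Icc 1 X, s m * Um m (la (f i)))) := by
  obtain ⟨D₀, hD1, hDC, hDs⟩ : ∃ D₀ : ℝ, 1 ≤ D₀ ∧ C₀ ≤ D₀ ∧
      ∑ m ∈ Finset.Icc 1 X, s m ^ 2 ≤ D₀ :=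
    ⟨max 1 (max C₀ (∑ m ∈ Finset.Icc 1 X, s m ^ 2)), le_max_left _ _,
      (le_max_left _ _).trans (le_max_right _ _), (le_max_right _ _).trans (le_max_right _ _)⟩
  obtain ⟨e₁, κa, C₁, he₁, hκa, hnorm⟩ := fs_normC h0 h1 D₀
  obtain ⟨e₂, he₂, htail⟩ := fs_tailC h0 h1 X
  obtain ⟨e₃, κb, he₃, hκb, hmean⟩ := fx_mean h0 h1 (show (0 : ℝ) < ε / 2 by positivity) D₀ X
  obtain ⟨D₁, hD11, hDC1⟩ : ∃ D₁ : ℝ, 1 ≤ D₁ ∧ (X : ℝ) * max 1 C₁ ≤ D₁ :=
    ⟨max 1 (X * max 1 C₁), le_max_left _ _, le_max_right _ _⟩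
  have hD00 : 0 < D₀ := by linarith
  have hD10 : 0 < D₁ := by linarith
  have hs1 : 0 < Real.sqrt D₁ := Real.sqrt_pos.mpr hD10
  obtain ⟨N₁, hbil⟩ := bilinear (ε := ε / (4 * Real.sqrt D₁))
    (C₀ := (∑ m ∈ Finset.Icc 1 X, |s m| * m) ^ 4) (d := δ / 4) (by positivity)
    (by positivity) (by linarith)
  refine ⟨min (min e₁ e₂) e₃, min κa κb, by positivity, by positivity,
    fun ε₂ hε₂ hε₂' => ?_⟩
  have hl1 : ε₂ ≤ e₁ := hε₂'.trans ((min_le_left _ _).trans (min_le_left _ _))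
  have hl2 : ε₂ ≤ e₂ := hε₂'.trans ((min_le_left _ _).trans (min_le_right _ _))
  have hl3 : ε₂ ≤ e₃ := hε₂'.trans (min_le_right _ _)
  obtain ⟨M₁, hnorm⟩ := hnorm ε₂ hε₂ hl1
  obtain ⟨k₂, M₂, hk₂, htail⟩ := htail ε₂ hε₂ hl2
  obtain ⟨k₃, M₃, hk₃, hmean⟩ := hmean ε₂ hε₂ hl3
  have hpi := Real.pi_pos
  obtain ⟨M₄, hM₄⟩ := fd_large (θ := min (δ / 32) (min (δ / 24) ε₂)) (by positivity) X
  obtain ⟨M₅, hM₅⟩ := exists_nat_gt (((X : ℝ) + 1) * (16 * Real.pi) ^ 2)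
  obtain ⟨M₆, hM₆⟩ := exists_nat_gt (32 * D₀ / ε ^ 2)
  refine ⟨min (min k₂ k₃) (min (δ / 24) ε₂),
    N₁ + M₁ + M₂ + M₃ + M₄ + M₅ + M₆ + (X + 2), by positivity,
    fun N _ hN ι _ f hf q _ χ hχ hq a ha => ?_⟩
  have hN1 : N₁ ≤ N := by omega
  have hNM1 : M₁ ≤ N := by omega
  have hNM2 : M₂ ≤ N := by omega
  have hNM3 : M₃ ≤ N := by omega
  have hNM4 : M₄ ≤ N := by omega
  have hNM5 : M₅ ≤ N := by omega
  have hNM6 : M₆ ≤ N := by omega
  have hNX : X + 2 ≤ N := by omega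
  have hN2 : 2 ≤ N := by omega
  have hXN : X < N := by omega
  have hNR : (1 : ℝ) ≤ N := by exact_mod_cast (by omega : 1 ≤ N)
  have hNR0 : (0 : ℝ) < N := by linarith
  have hq1 : 1 ≤ q := Nat.one_le_iff_ne_zero.mpr (NeZero.ne q)
  have hq2 : (q : ℝ) ≤ (N : ℝ) ^ k₂ := hq.trans (Real.rpow_le_rpow_of_exponent_le hNR
    ((min_le_left _ _).trans (min_le_left _ _)))
  have hq3 : (q : ℝ) ≤ (N : ℝ) ^ k₃ := hq.trans (Real.rpow_le_rpow_of_exponent_le hNR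
    ((min_le_left _ _).trans (min_le_right _ _)))
  have hq4 : (q : ℝ) ≤ (N : ℝ) ^ (δ / 24) := hq.trans (Real.rpow_le_rpow_of_exponent_le hNR
    ((min_le_right _ _).trans (min_le_left _ _)))
  have hq5 : (q : ℝ) ≤ (N : ℝ) ^ ε₂ := hq.trans (Real.rpow_le_rpow_of_exponent_le hNR
    ((min_le_right _ _).trans (min_le_right _ _)))
  have hX0 := hM₄ N hNM4
  have hX1 : (X : ℝ) ≤ (N : ℝ) ^ (δ / 32) := hX0.trans (Real.rpow_le_rpow_of_exponent_le hNR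
    (min_le_left _ _))
  have hX2 : (X : ℝ) ≤ (N : ℝ) ^ (δ / 24) := hX0.trans (Real.rpow_le_rpow_of_exponent_le hNR
    ((min_le_right _ _).trans (min_le_left _ _)))
  have hX3 : (X : ℝ) ≤ (N : ℝ) ^ ε₂ := hX0.trans (Real.rpow_le_rpow_of_exponent_le hNR
    ((min_le_right _ _).trans (min_le_right _ _)))
  set n : ℕ := N * q ^ 2 with hn_def
  have hnN : N ≤ n := Nat.le_mul_of_pos_right _ (by positivity)
  have hnNR : (N : ℝ) ≤ n := by exact_mod_cast hnN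
  have hKAn : ∀ m : ℕ, (m : ℝ) ≤ (N : ℝ) ^ ε₂ → m ≤ KA ε₂ n := by
    intro m hm
    unfold KA
    apply Nat.le_floor
    exact hm.trans (Real.rpow_le_rpow (by positivity) hnNR hε₂.le)
  have hqKA : q ≤ KA ε₂ n := hKAn q hq5
  have hXKA : X ≤ KA ε₂ n := hKAn X hX3
  have hlen := fd_len h0 h1 (by positivity) le_rfl (by omega) hq4 hX2
  rw [← hn_def] at hlen
  have hn : ∀ i, IsNew (f i) := fun i => (hf.2 (f i)).mpr ⟨i, rfl⟩
  have hPr : ∀ p ∈ Pr N, p.Prime ∧ p < N := by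
    intro p hp
    obtain ⟨h2, h3⟩ := Finset.mem_filter.mp hp
    exact ⟨h3, Finset.mem_range.mp h2⟩
  obtain ⟨P, hP⟩ := st_exists (Pr N) (fun p hp => (hPr p hp).1)
  -- the small factor
  set S : (ℕ → ℝ) → ℝ := fun x => ∑ m ∈ Finset.Icc 1 X, s m * Um m x with hS
  have hSP : HPoly (Pr N) X S :=
    ⟨s, fun m hm => ⟨(hs m hm).1, (hs m hm).2, TRN_pf (lt_of_le_of_lt (hs m hm).2 hXN)⟩,
      fun x => rfl⟩
  have hS8 : HPoly (Pr N) ⌊(N : ℝ) ^ (δ / 4 / 8)⌋₊ S := by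
    refine fia_mono (Nat.le_floor ?_) hSP
    refine hX1.trans (le_of_eq ?_)
    congr 1
    ring
  have hSsq : ∫ x, S x ^ 2 ∂P = ∑ m ∈ Finset.Icc 1 X, s m ^ 2 := by
    rw [hS]
    exact st_sq (fun p hp => (hPr p hp).1) hP
      (fun m hm => ⟨(hs m hm).1, (hs m hm).2, TRN_pf (lt_of_le_of_lt (hs m hm).2 hXN)⟩)
  have hS4 : ∫ x, S x ^ 4 ∂P ≤ (∑ m ∈ Finset.Icc 1 X, |s m| * m) ^ 4 := fd_four hXN hP
  -- the long factor
  have hX1N : X1 δ n < N := by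
    by_cases hX0 : X = 0
    · -- then the length bound is empty; use the bound for `X = 1`
      have hlen1 := fd_len (X := 1) h0 h1 (by positivity) le_rfl (by omega) hq4
        (by rw [Nat.cast_one]; exact Real.one_le_rpow hNR (by positivity))
      rw [one_mul, ← hn_def] at hlen1
      have h2 : (N : ℝ) ^ (1 - δ / 4) < (N : ℝ) ^ (1 : ℝ) :=
        Real.rpow_lt_rpow_of_exponent_lt (by exact_mod_cast (by omega : 1 < N)) (by linarith)
      rw [Real.rpow_one] at h2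
      exact_mod_cast lt_of_le_of_lt hlen1 h2
    · have h2 : (N : ℝ) ^ (1 - δ / 4) < (N : ℝ) ^ (1 : ℝ) :=
        Real.rpow_lt_rpow_of_exponent_lt (by exact_mod_cast (by omega : 1 < N)) (by linarith)
      rw [Real.rpow_one] at h2
      have h3 : X * X1 δ n < N := by exact_mod_cast lt_of_le_of_lt hlen h2
      exact lt_of_le_of_lt (Nat.le_mul_of_pos_left _ (Nat.pos_of_ne_zero hX0)) h3
  obtain ⟨hFP0, hFsq⟩ := fx_hpoly hχ (δ := δ) ε₂ (n := n) hXN hX1N a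
  have hFP : HPoly (Pr N) ⌊(N : ℝ) ^ (1 - δ / 4)⌋₊ (FX χ δ ε₂ n X a) :=
    fia_mono (Nat.le_floor hlen) hFP0
  have hFC : ∫ x, FX χ δ ε₂ n X a x ^ 2 ∂P ≤ D₁ := by
    rw [hFsq P hP]
    refine le_trans (Finset.sum_le_sum (g := fun _ => max 1 C₁) fun k hk => ?_) ?_
    · obtain ⟨ha1, ha2, ha3⟩ := ha k hk
      have hk1 : 1 ≤ k := (Finset.mem_Icc.mp (Finset.mem_filter.mp hk).1).1
      refine (hnorm n (hNM1.trans hnN) q hq1 hqKA (a k) ha1 (ha2.trans hDC) (sX χ s k)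
        (fun m hm => ?_) (ha3.trans (min_le_left _ _))).trans (le_max_right _ _)
      have h2 : s (k * m) ≠ 0 := by
        intro h
        apply hm
        unfold sX
        rw [h, mul_zero, ite_self]
      exact ((Nat.le_mul_of_pos_left m hk1).trans (hs _ h2).2).trans hXKA
    · rw [Finset.sum_const, nsmul_eq_mul]
      refine le_trans (mul_le_mul_of_nonneg_right ?_ (by positivity)) hDC1
      have h2 : (QI q X).card ≤ X := by
        refine (Finset.card_filter_le _ _).trans ?_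
        simp
      exact_mod_cast h2
  have hm := hmean N hNM3 q χ hχ hq3 s hs hDs a
    (fun k hk => ⟨(ha k hk).1, (ha k hk).2.2.trans (min_le_right _ _)⟩) P hP
  obtain ⟨hb1, hb2⟩ := hbil N hN1 f hf hPr hP hFP hS8 hS4
  have hee : ε / (4 * Real.sqrt D₁) * Real.sqrt (∫ x, FX χ δ ε₂ n X a x ^ 2 ∂P) ≤ ε / 4 := by
    calc ε / (4 * Real.sqrt D₁) * Real.sqrt (∫ x, FX χ δ ε₂ n X a x ^ 2 ∂P) ≤
        ε / (4 * Real.sqrt D₁) * Real.sqrt D₁ := by gcongr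
      _ = ε / 4 := by field_simp
  -- the second moment of the small factor
  have hSE : ∑ i, om (f i) * S (la (f i)) ^ 2 ≤ 2 * D₀ := by
    have hSP1 : HPoly (Pr N) (X + 1) S := fia_mono (by omega) hSP
    have h2 := transfer f hf.1 hn (ν := 1 / (16 * Real.pi)) (X := X + 1) (by positivity) (by
      rw [div_lt_one (by positivity)]
      have := Real.pi_gt_three
      linarith) (by omega) (by
        have h3 : ((X : ℝ) + 1) * (16 * Real.pi) ^ 2 ≤ N :=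
          hM₅.le.trans (by exact_mod_cast hNM5)
        push_cast
        have h4 : (1 / (16 * Real.pi)) ^ 2 * (N : ℝ) = N / (16 * Real.pi) ^ 2 := by
          field_simp
        rw [h4, le_div_iff₀ (by positivity)]
        exact h3) hPr hP hSP1 0
    have h3 : Real.exp (8 * Real.pi * (1 / (16 * Real.pi))) ≤ 2 := by
      have h4 : 8 * Real.pi * (1 / (16 * Real.pi)) = 1 / 2 := by
        field_simp
        norm_num
      rw [h4]
      have h5 : Real.exp (1 / 2) ^ 2 = Real.exp 1 := by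
        rw [← Real.exp_nat_mul]
        norm_num
      have h6 := Real.exp_one_lt_three
      have h7 := Real.exp_pos (1 / 2)
      nlinarith
    have h4 : ∑ i, om (f i) * (S (la (f i)) + 0 * se (f i)) ^ 2 = ∑ i, om (f i) * S (la (f i)) ^ 2 := by
      simp only [zero_mul, add_zero]
    rw [h4, hSsq] at h2
    have h5 : 0 ≤ ∑ m ∈ Finset.Icc 1 X, s m ^ 2 := Finset.sum_nonneg fun _ _ => sq_nonneg _
    calc _ ≤ _ := h2
      _ ≤ 2 * (D₀ + 0 ^ 2) := by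
        apply mul_le_mul h3 _ (by positivity) (by norm_num)
        linarith
      _ = _ := by ring
  -- the tail
  have ht := htail N hNM2 f hf.1 hn q χ hχ hq2 a (fun k hk => (ha k hk).1)
  rw [← hn_def] at ht
  set L : ι → ℂ := fun i => 4 * Real.pi * gl (f i) (QC q δ ε₂ n X) (tw χ (vv q δ ε₂ n X a)) with hL
  have ht2 : ∑ i, om (f i) * ((L i).re - FX χ δ ε₂ n X a (la (f i))) ^ 2 ≤ 1 / N := by
    refine le_trans (Finset.sum_le_sum fun i _ => ?_) ht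
    apply mul_le_mul_of_nonneg_left _ (fia_om (hn i))
    have h2 : |(L i - ((FX χ δ ε₂ n X a (la (f i)) : ℝ) : ℂ)).re| ≤
        ‖L i - ((FX χ δ ε₂ n X a (la (f i)) : ℝ) : ℂ)‖ := Complex.abs_re_le_norm _
    rw [Complex.sub_re, Complex.ofReal_re] at h2
    rw [← sq_abs]
    exact pow_le_pow_left₀ (abs_nonneg _) h2 2
  have herr : ∑ i, om (f i) * (|(L i).re - FX χ δ ε₂ n X a (la (f i))| * |S (la (f i))|) ≤
      ε / 4 := by
    have h2 := fia_cs (fun i => om (f i)) (fun i => (L i).re - FX χ δ ε₂ n X a (la (f i)))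
      (fun i => S (la (f i))) (fun i => fia_om (hn i)) ht2 hSE (by positivity)
    refine h2.trans ?_
    rw [← Real.sqrt_mul (by positivity)]
    apply Real.sqrt_le_iff.mpr
    refine ⟨by positivity, ?_⟩
    have h3 : 32 * D₀ / ε ^ 2 < N := hM₆.trans_le (by exact_mod_cast hNM6)
    rw [div_lt_iff₀ (by positivity)] at h3
    have h4 : 1 / (N : ℝ) * (2 * D₀) = 2 * D₀ / N := by ring
    rw [h4, div_le_iff₀ (by linarith)]
    nlinarith
  -- assembly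
  have key : ∀ i, om (f i) * ((1 + se (f i)) / 2 * ((L i).re * S (la (f i)))) ≥
      1 / 2 * (om (f i) * (FX χ δ ε₂ n X a (la (f i)) * S (la (f i)))) +
      1 / 2 * (om (f i) * (se (f i) * (FX χ δ ε₂ n X a (la (f i)) * S (la (f i))))) -
      om (f i) * (|(L i).re - FX χ δ ε₂ n X a (la (f i))| * |S (la (f i))|) := by
    intro i
    have h2 : 0 ≤ (1 + se (f i)) / 2 ∧ (1 + se (f i)) / 2 ≤ 1 := by
      rcases fia_se (hn i) with h | h <;> rw [h] <;> norm_num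
    have h3 : -(|(L i).re - FX χ δ ε₂ n X a (la (f i))| * |S (la (f i))|) ≤
        (1 + se (f i)) / 2 * (((L i).re - FX χ δ ε₂ n X a (la (f i))) * S (la (f i))) := by
      have h4 : |(1 + se (f i)) / 2 * (((L i).re - FX χ δ ε₂ n X a (la (f i))) * S (la (f i)))| ≤
          |(L i).re - FX χ δ ε₂ n X a (la (f i))| * |S (la (f i))| := by
        rw [abs_mul, abs_mul, abs_of_nonneg h2.1]
        exact mul_le_of_le_one_left (by positivity) h2.2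
      exact (abs_le.mp h4).1
    have h5 := mul_le_mul_of_nonneg_left h3 (fia_om (hn i))
    nlinarith
  have hsum := Finset.sum_le_sum (s := Finset.univ) fun i _ => key i
  rw [Finset.sum_sub_distrib, Finset.sum_add_distrib, ← Finset.mul_sum, ← Finset.mul_sum] at hsum
  have hb1' := abs_le.mp hb1
  have hb2' := abs_le.mp hb2
  have hm' := abs_le.mp hm
  linarith [hb1'.1, hb2'.1, hm'.1]

end Pool.Agent.TK
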