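import Pool.Agent.Lib_helper41.LVBF.STO
import Pool.Agent.Lib_helper41.LVBF.TRA
import Pool.Agent.Lib_helper41.LVBF.TRN
import Pool.Agent.Lib_helper68.LEV.HPO
import Pool.Agent.Lib_helper68.KSLF.CSI
import Pool.Agent.Lib_helper68.KSLF.FIB
import Pool.Agent.Lib_helper41.TK.W.AC
import Pool.Agent.Lib_helper41.TK.W.AE
import Pool.Agent.Lib_helper41.TK.W.TO
import Pool.Agent.Lib_helper41.TK.W.FD
import Pool.Agent.Lib_helper41.TK.W.FE
import Pool.Agent.Lib_helper41.TK.W.FH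

/-! TK, block FI: the mollified twisted central values are large on half of the family. -/

set_option autoImplicit false

namespace Pool.Agent.TK

open Pool.Agent.LEV Pool.Agent.LVB Pool.Agent.KSL
open Pool.Agent.LK (PQ)
open Pool.Agent.FG61 (mu phi cc ff AA Lam)
open Complex MeasureTheory Filter Topology UpperHalfPlane ModularGroup ProbabilityTheory
open scoped MatrixGroups Modular ENNReal ModularForm ComplexConjugate ContDiff

/-- powers of `N` exceed any constant -/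
theorem fi_large {θ : ℝ} (hθ : 0 < θ) (B : ℝ) : ∃ M₀ : ℕ, ∀ N : ℕ, M₀ ≤ N →
    B ≤ (N : ℝ) ^ θ := by
  have h1 : Tendsto (fun n : ℕ => (n : ℝ) ^ θ) atTop atTop :=
    (tendsto_rpow_atTop hθ).comp tendsto_natCast_atTop_atTop
  exact Filter.eventually_atTop.mp (h1.eventually_ge_atTop B)

/-- values of a quadratic character -/
theorem fi_chi {q : ℕ} [NeZero q] {χ : DirichletCharacter ℂ q} (hχ : PQ χ) {m : ℕ}
    (hm : m.Coprime q) : χ m = ((χ m).re : ℂ) ∧ (χ m).re ^ 2 = 1 := by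
  have hu : IsUnit (m : ZMod q) := (ZMod.isUnit_iff_coprime m q).mpr hm
  have h1 : χ m ^ 2 = 1 := by
    have h2 : (χ ^ 2) (m : ZMod q) = 1 := by rw [hχ.sq, MulChar.one_apply hu]
    rwa [MulChar.pow_apply' _ two_ne_zero] at h2
  have h3 : (χ m - 1) * (χ m + 1) = 0 := by linear_combination h1
  rcases mul_eq_zero.mp h3 with h | h
  · have h4 : χ m = 1 := by linear_combination h
    rw [h4]
    simp
  · have h4 : χ m = -1 := by linear_combination h
    rw [h4]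
    simp

theorem fi_uu {c : ℝ} (hc : c ^ 2 = 1) (x : ℝ) : ∀ n : ℕ, Uu (c * x) n = c ^ n * Uu x n
  | 0 => by simp [Uu]
  | 1 => by simp [Uu]
  | (n + 2) => by
    have h1 := fi_uu hc x (n + 1)
    have h2 := fi_uu hc x n
    simp only [Uu]
    rw [h1, h2]
    have h3 : c ^ (n + 2) = c ^ n := by rw [pow_add, hc, mul_one]
    linear_combination (Uu x n) * h3

/-- twisting the variables -/
theorem fi_um {q : ℕ} [NeZero q] {χ : DirichletCharacter ℂ q} (hχ : PQ χ) {m : ℕ} (hm0 : m ≠ 0)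
    (hm : m.Coprime q) (x : ℕ → ℝ) :
    Um m (fun p => (χ p).re * x p) = (χ m).re * Um m x := by
  have hp : ∀ p ∈ m.primeFactors, p.Coprime q := fun p hp =>
    Nat.Coprime.coprime_dvd_left (Nat.dvd_of_mem_primeFactors hp) hm
  have e : ((m : ℕ) : ZMod q) = ∏ p ∈ m.primeFactors, (p : ZMod q) ^ m.factorization p := by
    have h := Nat.prod_factorization_pow_eq_self hm0
    rw [Nat.prod_factorization_eq_prod_primeFactors] at h
    conv_lhs => rw [← h]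
    push_cast
    rfl
  have h1 : (χ m : ℂ) = ((∏ p ∈ m.primeFactors, (χ p).re ^ m.factorization p : ℝ) : ℂ) := by
    rw [e, map_prod]
    push_cast
    refine Finset.prod_congr rfl fun p hpm => ?_
    rw [map_pow, ← (fi_chi hχ (hp p hpm)).1]
  have h2 : (χ m).re = ∏ p ∈ m.primeFactors, (χ p).re ^ m.factorization p := by
    rw [h1]
    exact Complex.ofReal_re _
  unfold Um
  rw [h2, ← Finset.prod_mul_distrib]
  refine Finset.prod_congr rfl fun p hpm => ?_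
  exact fi_uu (fi_chi hχ (hp p hpm)).2 _ _

/-- splitting off the part composed of the primes dividing `q` -/
theorem fi_sum {q : ℕ} (hq : 1 ≤ q) {X : ℕ} {g : ℕ → ℝ} (hg : ∀ n, g n ≠ 0 → 1 ≤ n ∧ n ≤ X) :
    ∑ k ∈ QI q X, ∑ m ∈ Finset.Icc 1 X, (if m.Coprime q then g (k * m) else 0) =
      ∑ n ∈ Finset.Icc 1 X, g n := by
  classical
  rw [← Finset.sum_product']
  symm
  refine Finset.sum_bij_ne_zero (fun n _ _ => (qs q n, qr q n)) ?_ ?_ ?_ ?_
  · intro n hn _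
    obtain ⟨h1, h2⟩ := Finset.mem_Icc.mp hn
    obtain ⟨e1, e2, e3, e4, e5⟩ := qs_qr hq h1
    rw [Finset.mem_product]
    refine ⟨Finset.mem_filter.mpr ⟨Finset.mem_Icc.mpr ⟨e4, ?_⟩, e2⟩, Finset.mem_Icc.mpr ⟨e5, ?_⟩⟩
    · have := Nat.le_mul_of_pos_right (qs q n) e5
      simp only
      omega
    · have := Nat.le_mul_of_pos_left (qr q n) e4
      simp only
      omega
  · intro n hn _ n' hn' _ h
    have h1 := (qs_qr hq (Finset.mem_Icc.mp hn).1).1
    have h2 := (qs_qr hq (Finset.mem_Icc.mp hn').1).1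
    obtain ⟨h3, h4⟩ := Prod.mk.inj h
    rw [← h1, ← h2, h3, h4]
  · intro p hp hne
    obtain ⟨k, m⟩ := p
    rw [Finset.mem_product] at hp
    obtain ⟨hk, hm⟩ := hp
    simp only at hk hm hne
    obtain ⟨hk1, hk2⟩ := Finset.mem_filter.mp hk
    have hcop : m.Coprime q := by
      by_contra h
      exact hne (if_neg h)
    rw [if_pos hcop] at hne
    obtain ⟨h1, h2⟩ := hg _ hne
    obtain ⟨h3, h4⟩ := qs_mul hq (Finset.mem_Icc.mp hk1).1 hk2 (Finset.mem_Icc.mp hm).1 hcop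
    exact ⟨k * m, Finset.mem_Icc.mpr ⟨h1, h2⟩, hne, by rw [h3, h4]⟩
  · intro n hn _
    obtain ⟨h1, h2⟩ := Finset.mem_Icc.mp hn
    obtain ⟨e1, e2, e3, e4, e5⟩ := qs_qr hq h1
    simp only
    rw [if_pos e3, e1]

theorem fi_sq {q : ℕ} [NeZero q] {χ : DirichletCharacter ℂ q} (hχ : PQ χ) {X : ℕ} {s : ℕ → ℝ}
    (hs : ∀ m, s m ≠ 0 → 1 ≤ m ∧ m ≤ X) :
    ∑ k ∈ QI q X, ∑ m ∈ Finset.Icc 1 X, sX χ s k m ^ 2 = ∑ n ∈ Finset.Icc 1 X, s n ^ 2 := by
  have hq : 1 ≤ q := Nat.one_le_iff_ne_zero.mpr (NeZero.ne q)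
  rw [← fi_sum hq (g := fun n => s n ^ 2) (X := X)
    (fun n hn => hs n fun h => hn (by simp only [h]; norm_num))]
  refine Finset.sum_congr rfl fun k _ => Finset.sum_congr rfl fun m _ => ?_
  unfold sX
  by_cases hm : m.Coprime q
  · rw [if_pos hm, if_pos hm, mul_pow, (fi_chi hχ hm).2, one_mul]
  · rw [if_neg hm, if_neg hm]
    norm_num

theorem fi_S {q : ℕ} [NeZero q] {χ : DirichletCharacter ℂ q} (hχ : PQ χ) {X : ℕ} {s : ℕ → ℝ}
    (hs : ∀ m, s m ≠ 0 → 1 ≤ m ∧ m ≤ X) (x : ℕ → ℝ) :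
    ∑ k ∈ QI q X, Um k x * ∑ m ∈ Finset.Icc 1 X, sX χ s k m *
      Um m (fun p => (χ p).re * x p) = ∑ n ∈ Finset.Icc 1 X, s n * Um n x := by
  have hq : 1 ≤ q := Nat.one_le_iff_ne_zero.mpr (NeZero.ne q)
  rw [← fi_sum hq (g := fun n => s n * Um n x) (X := X)
    (fun n hn => hs n fun h => hn (by simp only [h]; ring))]
  refine Finset.sum_congr rfl fun k hk => ?_
  rw [Finset.mul_sum]
  refine Finset.sum_congr rfl fun m hm => ?_
  have hm1 : m ≠ 0 := by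
    have := (Finset.mem_Icc.mp hm).1
    omega
  unfold sX
  by_cases hmq : m.Coprime q
  · rw [if_pos hmq, if_pos hmq, fi_um hχ hm1 hmq]
    have hkm : k.Coprime m := by
      apply Nat.coprime_of_dvd
      intro p hp hpk hpm
      have h1 : p ∈ q.primeFactors := (Finset.mem_filter.mp hk).2 (Nat.mem_primeFactors.mpr
        ⟨hp, hpk, by
          have := (Finset.mem_Icc.mp (Finset.mem_filter.mp hk).1).1
          omega⟩)
      have h2 := Nat.dvd_of_mem_primeFactors h1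
      exact hp.one_lt.ne' (Nat.eq_one_of_dvd_coprimes hmq hpm h2)
    rw [HPO_um_mul hkm]
    linear_combination (Um k x * s (k * m) * Um m x) * (fi_chi hχ hmq).2
  · rw [if_neg hmq, if_neg hmq]
    ring

/-- the lengths -/
theorem fi_len {δ ε₂ : ℝ} (h0 : 0 < ε₂) (h1 : ε₂ ≤ δ) (h2 : δ ≤ 1 / 8) (X : ℕ) : ∃ N₀ : ℕ,
    ∀ N q : ℕ, N₀ ≤ N → 1 ≤ q → (q : ℝ) ≤ (N : ℝ) ^ (1 / 10 : ℝ) →
      q * (X * QQ δ ε₂ (N * q ^ 2)) < N ∧ KA ε₂ (N * q ^ 2) < N := by
  obtain ⟨M₀, hM₀⟩ := fi_large (θ := 1 / 10) (by norm_num) (max X 2)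
  refine ⟨max M₀ 2, fun N q hN hq1 hq => ?_⟩
  have hN2 : 2 ≤ N := (le_max_right _ _).trans hN
  have hN1 : (1 : ℝ) ≤ N := by exact_mod_cast (by omega : 1 ≤ N)
  have hN1' : (1 : ℝ) < N := by exact_mod_cast (by omega : 1 < N)
  have hN0 : (0 : ℝ) < N := by linarith
  have hX := hM₀ N ((le_max_left _ _).trans hN)
  have hX1 : (X : ℝ) ≤ (N : ℝ) ^ (1 / 10 : ℝ) := (le_max_left _ _).trans hX
  have hX2 : (2 : ℝ) ≤ (N : ℝ) ^ (1 / 10 : ℝ) := (le_max_right _ _).trans hX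
  have hq0 : (1 : ℝ) ≤ q := by exact_mod_cast hq1
  set n : ℕ := N * q ^ 2 with hn
  have hnR : (n : ℝ) = (N : ℝ) * (q : ℝ) ^ 2 := by rw [hn]; push_cast; ring
  have hn1 : (1 : ℝ) ≤ n := by
    rw [hnR]
    nlinarith
  have hn0 : (0 : ℝ) < n := by linarith
  have hnN : (n : ℝ) ≤ (N : ℝ) ^ (6 / 5 : ℝ) := by
    rw [hnR]
    calc (N : ℝ) * (q : ℝ) ^ 2 ≤ N * ((N : ℝ) ^ (1 / 10 : ℝ)) ^ 2 := by gcongr
      _ = (N : ℝ) ^ (6 / 5 : ℝ) := by
        rw [← Real.rpow_natCast ((N : ℝ) ^ (1 / 10 : ℝ)) 2, ← Real.rpow_mul hN0.le]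
        conv_lhs => rw [← Real.rpow_one (N : ℝ)]
        rw [← Real.rpow_mul hN0.le, ← Real.rpow_add hN0]
        norm_num
  have hKA : (KA ε₂ n : ℝ) ≤ (n : ℝ) ^ ε₂ := Nat.floor_le (by positivity)
  have hMM : (MM δ n : ℝ) ≤ (n : ℝ) ^ (1 / 2 - δ) := Nat.floor_le (by positivity)
  constructor
  · have h3 : (MM δ n : ℝ) * KA ε₂ n ≤ (N : ℝ) ^ (3 / 5 : ℝ) := by
      calc (MM δ n : ℝ) * KA ε₂ n ≤ (n : ℝ) ^ (1 / 2 - δ) * (n : ℝ) ^ ε₂ :=
            mul_le_mul hMM hKA (Nat.cast_nonneg _) (by positivity)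
        _ = (n : ℝ) ^ (1 / 2 - δ + ε₂) := by rw [Real.rpow_add hn0]
        _ ≤ (n : ℝ) ^ (1 / 2 : ℝ) := Real.rpow_le_rpow_of_exponent_le hn1 (by linarith)
        _ ≤ ((N : ℝ) ^ (6 / 5 : ℝ)) ^ (1 / 2 : ℝ) :=
            Real.rpow_le_rpow hn0.le hnN (by norm_num)
        _ = (N : ℝ) ^ (3 / 5 : ℝ) := by
            rw [← Real.rpow_mul hN0.le]
            norm_num
    have h4 : ((q * (X * QQ δ ε₂ n) : ℕ) : ℝ) = (q : ℝ) * (X * (2 * ((MM δ n : ℝ) * KA ε₂ n))) := by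
      unfold QQ QA
      push_cast
      ring
    have h5 : ((q * (X * QQ δ ε₂ n) : ℕ) : ℝ) < N := by
      rw [h4]
      calc (q : ℝ) * (X * (2 * ((MM δ n : ℝ) * KA ε₂ n))) ≤
          (N : ℝ) ^ (1 / 10 : ℝ) * ((N : ℝ) ^ (1 / 10 : ℝ) * ((N : ℝ) ^ (1 / 10 : ℝ) *
            (N : ℝ) ^ (3 / 5 : ℝ))) := by gcongr
        _ = (N : ℝ) ^ (9 / 10 : ℝ) := by
            rw [← Real.rpow_add hN0, ← Real.rpow_add hN0, ← Real.rpow_add hN0]
            norm_num
        _ < (N : ℝ) ^ (1 : ℝ) := Real.rpow_lt_rpow_of_exponent_lt hN1' (by norm_num)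
        _ = N := Real.rpow_one _
    exact_mod_cast h5
  · have h3 : (KA ε₂ n : ℝ) < N := by
      calc (KA ε₂ n : ℝ) ≤ (n : ℝ) ^ ε₂ := hKA
        _ ≤ (n : ℝ) ^ (1 / 8 : ℝ) := Real.rpow_le_rpow_of_exponent_le hn1 (by linarith)
        _ ≤ ((N : ℝ) ^ (6 / 5 : ℝ)) ^ (1 / 8 : ℝ) :=
            Real.rpow_le_rpow hn0.le hnN (by norm_num)
        _ = (N : ℝ) ^ (3 / 20 : ℝ) := by
            rw [← Real.rpow_mul hN0.le]
            norm_num
        _ < (N : ℝ) ^ (1 : ℝ) := Real.rpow_lt_rpow_of_exponent_lt hN1' (by norm_num)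
        _ = N := Real.rpow_one _
    exact_mod_cast h3

/-- the mollified twisted central values are large on half of the weighted family of even forms -/
theorem moll_halfC (A : Finset ℕ) (c : ℕ → ℝ) (hA : ∀ a ∈ A, 1 ≤ a) (hc : ∀ a, 0 ≤ c a) {ε : ℝ}
    (hε : 0 < ε) : ∃ (A₁ : ℕ) (κ δ κ₁ : ℝ) (N₀ : ℕ), 0 < κ ∧ 0 < δ ∧ δ < 1 / 4 ∧ 0 < κ₁ ∧
    κ₁ ≤ 1 / 10 ∧ ∀ (N : ℕ) [Fact N.Prime], N₀ ≤ N → ∀ {ι : Type} [Fintype ι] (f : ι → S2 N),
    AllNew f → ∀ (q : ℕ) [NeZero q] (χ : DirichletCharacter ℂ q), PQ χ →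
    (q : ℝ) ≤ (N : ℝ) ^ κ₁ → χ (-(N : ZMod q)) = 1 → ∀ P : Measure (ℕ → ℝ),
    IsST ((IZ (N * q ^ 2)).filter (fun p => p ∣ q)) P → ∃ G : Finset ι,
      (∀ i ∈ G, co (f i) N = 1 ∧ κ ≤ |bx χ (f i)| *
        |∫ y, Bz A₁ (N * q ^ 2) (fun p => if p ∣ q then y p else lx χ (f i) p) *
          ∏ p ∈ (IZ (N * q ^ 2)).filter (fun p => p ∣ q), er p (y p) ∂P| *
        |MrC q (zz (N * q ^ 2)) (MM δ (N * q ^ 2)) 2 (lx χ (f i))|) ∧
      1 / 4 * (∑ a ∈ A, c a) - ε ≤ ∑ i ∈ G, om (f i) * Hd A c (la (f i)) := by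
  classical
  obtain ⟨A₁, hA₁, hsp⟩ := a_choice
  set h₀ : ℝ := ∑ a ∈ A, c a with hh₀
  have hh0 : 0 ≤ h₀ := Finset.sum_nonneg fun a _ => hc a
  set ε' : ℝ := min ε 1 / 4 with hε'
  have hε0 : 0 < ε' := by positivity
  have hεε : ε' ≤ ε / 4 := by
    have := min_le_left ε 1
    rw [hε']; linarith
  have hε1 : ε' ≤ 1 / 4 := by
    have := min_le_right ε 1
    rw [hε']; linarith
  obtain ⟨X, s, hs, hs3, Na, hs4⟩ := s_choiceC A c hA hc hε0
  set x : ℝ := ∑ m ∈ Finset.Icc 1 X, s m ^ 2 with hx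
  have hx0 : 0 ≤ x := Finset.sum_nonneg fun m _ => sq_nonneg _
  set B : ℝ := h₀ + 1 with hB
  have hB1 : 1 ≤ B := by linarith
  have hxB : x ≤ B := by
    have h1 := (abs_le.mp hs3).2
    linarith
  set e : ℝ := (ε' / (400 * B)) ^ 2 with he
  have he0 : 0 < e := by positivity
  have hse : Real.sqrt e = ε' / (400 * B) := by
    rw [he]
    exact Real.sqrt_sq (by positivity)
  have he1 : e ≤ 1 := by
    have h1 : ε' / (400 * B) ≤ 1 := by
      rw [div_le_one (by positivity)]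
      nlinarith
    have h2 : 0 ≤ ε' / (400 * B) := by positivity
    rw [he]
    exact pow_le_one₀ h2 h1
  set δ : ℝ := min (1 / 8) (ε' / (200 * B)) with hδ
  have hδ0 : 0 < δ := lt_min (by norm_num) (by positivity)
  have hδ1 : δ ≤ 1 / 8 := min_le_left _ _
  have hδ2 : δ ≤ ε' / (200 * B) := min_le_right _ _
  have hδ4 : δ < 1 / 4 := by linarith
  set κ : ℝ := ε' / (16 * B) with hκ
  have hκ0 : 0 < κ := by positivity
  set C₀ : ℝ := B + 1 with hC₀
  obtain ⟨ε₁, κa, hε₁, hκa, hsec⟩ := second_momentC hδ0 hδ4 he0 C₀ X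
  obtain ⟨ε₁', κb, hε₁', hκb, hfir⟩ := first_momentC hδ0 hδ4 he0 C₀ X s hs
  set e₂ : ℝ := min (min κa κb) (e / (X + 1)) with he₂
  have he₂0 : 0 < e₂ := lt_min (lt_min hκa hκb) (by positivity)
  have he₂X : (X : ℝ) * e₂ ≤ e := by
    have h1 : e₂ ≤ e / (X + 1) := min_le_right _ _
    rw [le_div_iff₀ (by positivity)] at h1
    nlinarith
  have he₂1 : e₂ ≤ 1 := by
    have h1 : e₂ ≤ e / (X + 1) := min_le_right _ _
    rw [le_div_iff₀ (by positivity)] at h1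
    have h2 : (0 : ℝ) ≤ X := Nat.cast_nonneg _
    nlinarith
  set ε₂ : ℝ := min (min ε₁ ε₁') δ with hε₂
  have hε₂0 : 0 < ε₂ := lt_min (lt_min hε₁ hε₁') hδ0
  have hε₂1 : ε₂ ≤ ε₁ := (min_le_left _ _).trans (min_le_left _ _)
  have hε₂2 : ε₂ ≤ ε₁' := (min_le_left _ _).trans (min_le_right _ _)
  have hε₂3 : ε₂ ≤ δ := min_le_right _ _
  obtain ⟨N₂, hN₂⟩ := hsp ε₂ e₂ X s hε₂0 he₂0 hs
  obtain ⟨k₃, N₃, hk₃, hN₃⟩ := hsec ε₂ hε₂0 hε₂1
  obtain ⟨k₄, N₄, hk₄, hN₄⟩ := hfir ε₂ hε₂0 hε₂2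
  obtain ⟨N₅, hN₅⟩ := fi_len hε₂0 hε₂3 hδ1 X
  obtain ⟨N₆, hN₆⟩ := exists_nat_gt (10000 * ((X : ℝ) + 1))
  refine ⟨A₁, κ, δ, min (min k₃ k₄) (1 / 10), Na + N₂ + N₃ + N₄ + N₅ + N₆ + (X + 1), hκ0, hδ0,
    hδ4, by positivity, min_le_right _ _, ?_⟩
  intro N _ hN ι _ f hf q _ χ hχ hq hχN P hP
  have hNR : (1 : ℝ) ≤ N := by exact_mod_cast (by omega : 1 ≤ N)
  have hq1 : 1 ≤ q := Nat.one_le_iff_ne_zero.mpr (NeZero.ne q)
  have hq3 : (q : ℝ) ≤ (N : ℝ) ^ k₃ := hq.trans (Real.rpow_le_rpow_of_exponent_le hNR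
    ((min_le_left _ _).trans (min_le_left _ _)))
  have hq4 : (q : ℝ) ≤ (N : ℝ) ^ k₄ := hq.trans (Real.rpow_le_rpow_of_exponent_le hNR
    ((min_le_left _ _).trans (min_le_right _ _)))
  have hq5 : (q : ℝ) ≤ (N : ℝ) ^ (1 / 10 : ℝ) := hq.trans (Real.rpow_le_rpow_of_exponent_le hNR
    (min_le_right _ _))
  obtain ⟨hQN, hKN⟩ := hN₅ N q (by omega) hq1 hq5
  set n : ℕ := N * q ^ 2 with hn_def
  have hnN : N ≤ n := Nat.le_mul_of_pos_right _ (by positivity)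
  obtain ⟨a, ha⟩ := hN₂ n (by omega) q χ hχ
  have hi : Function.Injective f := hf.1
  have hn : ∀ i, IsNew (f i) := fun i => (hf.2 (f i)).mpr ⟨i, rfl⟩
  have hXN : X < N := by omega
  have hPr : ∀ p ∈ Pr N, p.Prime ∧ p < N := by
    intro p hp
    obtain ⟨h2, h3⟩ := Finset.mem_filter.mp hp
    exact ⟨h3, Finset.mem_range.mp h2⟩
  obtain ⟨P', hP'⟩ := st_exists (Pr N) (fun p hp => (hPr p hp).1)
  -- the short vectors, extended by zero
  set a' : ℕ → ℕ → ℝ := fun k => if k ∈ QI q X then a k else fun _ => 0 with ha'_def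
  have haa : ∀ k ∈ QI q X, a' k = a k := fun k hk => if_pos hk
  have ha1 : ∀ k ∈ QI q X, ShC q (zz n) (KA ε₂ n) (a' k) := fun k hk => by
    rw [haa k hk]; exact (ha k hk).1
  have ha2 : ∀ k ∈ QI q X, cdC q (zz n) (KA ε₂ n) (a' k) (sX χ s k) ≤ e₂ := fun k hk => by
    rw [haa k hk]; exact (ha k hk).2.1
  have ha3 : ∀ k ∈ QI q X, cnC q (zz n) (KA ε₂ n) (a' k) ≤
      ∑ m ∈ Finset.Icc 1 X, sX χ s k m ^ 2 + e₂ := fun k hk => by
    rw [haa k hk]; exact (ha k hk).2.2.1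
  have hcn0 : ∀ k, 0 ≤ cnC q (zz n) (KA ε₂ n) (a' k) := by
    intro k
    unfold cnC
    apply tsum_nonneg
    intro m
    split_ifs
    · positivity
    · exact le_refl _
  have hxx : ∑ k ∈ QI q X, ∑ m ∈ Finset.Icc 1 X, sX χ s k m ^ 2 = x := fi_sq hχ hs
  have hcnC : ∀ k ∈ QI q X, cnC q (zz n) (KA ε₂ n) (a' k) ≤ C₀ := by
    intro k hk
    have h1 : ∑ m ∈ Finset.Icc 1 X, sX χ s k m ^ 2 ≤ x := by
      rw [← hxx]
      exact Finset.single_le_sum (f := fun k => ∑ m ∈ Finset.Icc 1 X, sX χ s k m ^ 2)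
        (fun k _ => Finset.sum_nonneg fun m _ => sq_nonneg _) hk
    have h2 := ha3 k hk
    rw [hC₀]
    linarith
  set ct : ℝ := ∑ k ∈ QI q X, cnC q (zz n) (KA ε₂ n) (a' k) with hct
  have hct0 : 0 ≤ ct := Finset.sum_nonneg fun k _ => hcn0 k
  have hctx : ct ≤ x + e := by
    have h1 : ct ≤ ∑ k ∈ QI q X, (∑ m ∈ Finset.Icc 1 X, sX χ s k m ^ 2 + e₂) :=
      Finset.sum_le_sum ha3
    rw [Finset.sum_add_distrib, hxx, Finset.sum_const, nsmul_eq_mul] at h1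
    have h2 : ((QI q X).card : ℝ) ≤ X := by
      have h3 : (QI q X).card ≤ X := by
        refine (Finset.card_filter_le _ _).trans ?_
        simp
      exact_mod_cast h3
    have h4 : ((QI q X).card : ℝ) * e₂ ≤ X * e₂ := mul_le_mul_of_nonneg_right h2 he₂0.le
    linarith
  have hcts : Real.sqrt ct ≤ Real.sqrt x + Real.sqrt e := by
    apply Real.sqrt_le_iff.mpr
    refine ⟨by positivity, ?_⟩
    have h1 := Real.sq_sqrt hx0
    have h2 := Real.sq_sqrt he0.le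
    have h3 := Real.sqrt_nonneg x
    have h4 := Real.sqrt_nonneg e
    nlinarith
  have hsX : ∀ k m, sX χ s k m ≠ 0 → m ≤ X := by
    intro k m hm
    have h2 : s (k * m) ≠ 0 := by
      intro h
      apply hm
      unfold sX
      rw [h, mul_zero, ite_self]
    obtain ⟨h3, h4⟩ := hs _ h2
    have hk : 1 ≤ k := by
      rcases Nat.eq_zero_or_pos k with h | h
      · rw [h, zero_mul] at h3
        omega
      · exact h
    exact (Nat.le_mul_of_pos_left m hk).trans h4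
  -- the three sums
  set o : ι → ℝ := fun i => om (f i) * ((1 + se (f i)) / 2) with ho
  set F : ι → ℝ := fun i => ‖4 * Real.pi * gl (f i) (QC q δ ε₂ n X) (tw χ (vv q δ ε₂ n X a'))‖
    with hF
  set S : ι → ℝ := fun i => ∑ m ∈ Finset.Icc 1 X, s m * Um m (la (f i)) with hS
  have ho0 : ∀ i, 0 ≤ o i := by
    intro i
    rcases fib_se (hn i) with ⟨-, h⟩ | ⟨-, h⟩
    · simp only [ho, h, mul_one]; exact fib_om _
    · simp only [ho, h, mul_zero]; exact le_refl _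
  have hole : ∀ i, o i ≤ om (f i) := by
    intro i
    rcases fib_se (hn i) with ⟨-, h⟩ | ⟨-, h⟩
    · simp only [ho, h, mul_one]; exact le_refl _
    · simp only [ho, h, mul_zero]; exact fib_om _
  have hm1 : x - e ≤ ∑ i, o i * (F i * |S i|) := by
    refine (hN₄ N (by omega) f hf q χ hχ hq4 a' (fun k hk => ⟨ha1 k hk, hcnC k hk,
      (ha2 k hk).trans ((min_le_left _ _).trans (min_le_right _ _))⟩)).trans ?_
    apply Finset.sum_le_sum
    intro i _
    have h1 : (4 * Real.pi * gl (f i) (QC q δ ε₂ n X) (tw χ (vv q δ ε₂ n X a'))).re * S i ≤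
        F i * |S i| := by
      calc _ ≤ |(4 * Real.pi * gl (f i) (QC q δ ε₂ n X) (tw χ (vv q δ ε₂ n X a'))).re * S i| :=
            le_abs_self _
        _ = |(4 * Real.pi * gl (f i) (QC q δ ε₂ n X) (tw χ (vv q δ ε₂ n X a'))).re| * |S i| :=
            abs_mul _ _
        _ ≤ _ := mul_le_mul_of_nonneg_right (Complex.abs_re_le_norm _) (abs_nonneg _)
    have h2 := mul_le_mul_of_nonneg_left h1 (ho0 i)
    calc _ = o i * ((4 * Real.pi * gl (f i) (QC q δ ε₂ n X)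
          (tw χ (vv q δ ε₂ n X a'))).re * S i) := by
          simp only [ho, hS]; ring
      _ ≤ _ := h2
  have hm2 : ∑ i, o i * F i ^ 2 ≤ 2 * (1 + 1 / (1 - 2 * δ)) * ct + e := by
    have h1 := hN₃ N (by omega) (fun i : {i : ι // co (f i) N = 1} => f i.1)
      (fun i j h => Subtype.ext (hi h)) (fun i => hn i.1) (fun i => i.2) q χ hχ hq3 a'
      (sX χ s) hsX (fun k hk => ⟨ha1 k hk, hcnC k hk,
      (ha2 k hk).trans ((min_le_left _ _).trans (min_le_left _ _))⟩)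
    refine le_trans (le_of_eq ?_) h1
    have h2 : ∑ i : {i : ι // co (f i) N = 1}, om (f i.1) *
        ‖4 * Real.pi * gl (f i.1) (QC q δ ε₂ n X) (tw χ (vv q δ ε₂ n X a'))‖ ^ 2 =
        ∑ i ∈ Finset.univ.filter (fun i => co (f i) N = 1), om (f i) * F i ^ 2 := by
      exact (Finset.sum_subtype (Finset.univ.filter (fun i => co (f i) N = 1)) (fun i => by simp)
        (fun i => om (f i) * F i ^ 2)).symm
    rw [h2, Finset.sum_filter]
    apply Finset.sum_congr rfl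
    intro i _
    rcases fib_se (hn i) with ⟨h3, h⟩ | ⟨h3, h⟩
    · simp only [ho, h, mul_one, h3, if_true]
    · simp only [ho, h, mul_zero, h3, if_false, zero_mul]
  have hsP : ∀ m, s m ≠ 0 → 1 ≤ m ∧ m ≤ X + 1 ∧ m.primeFactors ⊆ Pr N :=
    fun m hm => ⟨(hs m hm).1, (hs m hm).2.trans (Nat.le_succ X),
      TRN_pf (lt_of_le_of_lt (hs m hm).2 hXN)⟩
  have hSX1 : ∀ y : ℕ → ℝ, ∑ m ∈ Finset.Icc 1 X, s m * Um m y =
      ∑ m ∈ Finset.Icc 1 (X + 1), s m * Um m y := by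
    intro y
    refine Finset.sum_subset (Finset.Icc_subset_Icc le_rfl (Nat.le_succ X)) fun m _ hm => ?_
    by_contra h2
    have h3 : s m ≠ 0 := fun h => h2 (by rw [h, zero_mul])
    exact hm (Finset.mem_Icc.mpr ⟨(hs m h3).1, (hs m h3).2⟩)
  have hm3 : ∑ i, o i * |S i| ^ 2 ≤ 2 * x := by
    have h1 := transfer f hi hn (ν := 1 / 100) (X := X + 1) (by norm_num) (by norm_num)
      (by omega) (by
        have h2 : N₆ ≤ N := by omega
        have h3 : (N₆ : ℝ) ≤ (N : ℝ) := Nat.cast_le.mpr h2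
        push_cast
        linarith)
      (I := Pr N) hPr hP' (G := fun x => ∑ m ∈ Finset.Icc 1 X, s m * Um m x)
      ⟨s, hsP, fun y => hSX1 y⟩ 0
    have h2 : ∫ y, (∑ m ∈ Finset.Icc 1 X, s m * Um m y) ^ 2 ∂P' = x :=
      st_sq (fun p hp => (hPr p hp).1) hP' (fun m hm => ⟨(hs m hm).1, (hs m hm).2, (hsP m hm).2.2⟩)
    simp only [zero_mul, add_zero] at h1
    rw [h2] at h1
    have h3 : Real.exp (8 * Real.pi * (1 / 100)) * (x + 0 ^ 2) ≤ 2 * x := by
      have h4 := mul_le_mul_of_nonneg_right fib_exp hx0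
      simpa using h4
    refine le_trans ?_ (h1.trans h3)
    apply Finset.sum_le_sum
    intro i _
    rw [sq_abs]
    exact mul_le_mul_of_nonneg_right (hole i) (sq_nonneg _)
  -- the good set
  set t : Finset ι := Finset.univ.filter (fun i => κ * |S i| ≤ F i ∧ |S i| ≠ 0) with ht
  have ht' : ∀ i, i ∉ t → F i < κ * |S i| ∨ |S i| = 0 := by
    intro i hi'
    by_contra h
    push Not at h
    apply hi'
    rw [ht, Finset.mem_filter]
    exact ⟨Finset.mem_univ _, h.1, h.2⟩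
  have hG : x / 4 - ε' ≤ ∑ i ∈ t, o i * |S i| ^ 2 := by
    have hpos : 0 ≤ ∑ i ∈ t, o i * |S i| ^ 2 :=
      Finset.sum_nonneg fun i _ => mul_nonneg (ho0 i) (sq_nonneg _)
    rcases fib_ineq (m₁ := x - e) (m₂ := 2 * (1 + 1 / (1 - 2 * δ)) * ct + e)
      (m₃ := 2 * x) hx0 hxB hB1 hε0 (by linarith) he0 hse.le hδ0 hδ2 hδ1 hκ0 le_rfl
      hcts hct0 rfl rfl rfl with h | ⟨h1, h2, h3⟩
    · linarith
    · exact h3.trans (cs_large o F (fun i => |S i|) ho0 (fun i => norm_nonneg _)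
        (fun i => abs_nonneg _) hκ0.le hm1 hm2 hm3 h1 h2 t ht')
  refine ⟨t.filter (fun i => co (f i) N = 1), ?_, ?_⟩
  · intro i hit
    rw [Finset.mem_filter, ht, Finset.mem_filter] at hit
    obtain ⟨⟨-, h1, h2⟩, h3⟩ := hit
    refine ⟨h3, ?_⟩
    set J : ℝ := ∫ y, Bz A₁ n (fun p => if p ∣ q then y p else lx χ (f i) p) *
          ∏ p ∈ (IZ n).filter (fun p => p ∣ q), er p (y p) ∂P with hJ
    have h4 := lm_tw (hn i) h3 hχ hχN (z := zz n) (M := MM δ n) (K := 2) (A := KA ε₂ n) (X := X)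
      (a := a') (by
        intro k m hkm
        by_cases hk : k ∈ QI q X
        · exact (ha1 k hk).sup m hkm
        · exact absurd (by rw [ha'_def]; simp only [if_neg hk]) hkm) hQN
    have hcopN : ∀ m : ℕ, 1 ≤ m → m < N → m.Coprime N := fun m hm1 hm2 =>
      (Nat.coprime_of_lt_prime (by omega) hm2 (Fact.out : N.Prime)).symm
    have h5 : ∑ k ∈ QI q X, la (f i) k * ∑ m ∈ Finset.Icc 1 (KA ε₂ n), a' k m * lx χ (f i) m =
        S i * J := by
      have h6 : ∀ k ∈ QI q X, la (f i) k *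
          ∑ m ∈ Finset.Icc 1 (KA ε₂ n), a' k m * lx χ (f i) m =
          (Um k (la (f i)) * ∑ m ∈ Finset.Icc 1 X, sX χ s k m *
            Um m (fun p => (χ p).re * la (f i) p)) * J := by
        intro k hk
        obtain ⟨hk1, hk2⟩ := Finset.mem_Icc.mp (Finset.mem_filter.mp hk).1
        rw [← um_new (hn i) (new_real (hn i)) (by omega) (hcopN k hk1 (by omega))]
        have h7 : ∑ m ∈ Finset.Icc 1 (KA ε₂ n), a' k m * lx χ (f i) m =
            ∑ m ∈ Finset.Icc 1 (KA ε₂ n), a k m * Um m (lx χ (f i)) := by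
          rw [haa k hk]
          refine Finset.sum_congr rfl fun m hm => ?_
          obtain ⟨hm1, hm2⟩ := Finset.mem_Icc.mp hm
          by_cases ham : a k m = 0
          · rw [ham, zero_mul, zero_mul]
          · have hmq : m.Coprime q := ((ha k hk).1.sup m ham).2.2
            have h8 : Um m (lx χ (f i)) = (χ m).re * Um m (la (f i)) :=
              fi_um hχ (by omega) hmq (la (f i))
            rw [h8, um_new (hn i) (new_real (hn i)) (by omega) (hcopN m hm1 (by omega))]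
            rfl
        rw [h7, (ha k hk).2.2.2 P hP (lx χ (f i)), ← mul_assoc]
        rfl
      rw [Finset.sum_congr rfl h6, ← Finset.sum_mul, fi_S hχ hs]
    have h6 : F i = |bx χ (f i)| * (|S i| * |J|) *
        |MrC q (zz n) (MM δ n) 2 (lx χ (f i))| := by
      have h7 : F i = ‖4 * Real.pi * gl (f i) (q * (X * QA (MM δ n) 2 (KA ε₂ n)))
        (tw χ (fun k d => if k ∈ QI q X then (1 / Real.sqrt k) *
          wAC q (zz n) (MM δ n) 2 (KA ε₂ n) (a' k) d else 0))‖ := rfl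
      rw [h7, ← h4, Complex.norm_real, h5, Real.norm_eq_abs, abs_mul, abs_mul, abs_mul]
    have h8 : 0 < |S i| := lt_of_le_of_ne (abs_nonneg _) (Ne.symm h2)
    rw [h6] at h1
    have h9 : κ * |S i| ≤ |bx χ (f i)| * |J| *
        |MrC q (zz n) (MM δ n) 2 (lx χ (f i))| * |S i| := by
      calc _ ≤ _ := h1
        _ = _ := by ring
    exact le_of_mul_le_mul_right h9 h8
  · have h1 : ∑ i ∈ t, o i * |S i| ^ 2 =
        ∑ i ∈ t.filter (fun i => co (f i) N = 1), om (f i) * S i ^ 2 := by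
      conv_rhs => rw [Finset.sum_filter]
      apply Finset.sum_congr rfl
      intro i _
      rcases fib_se (hn i) with ⟨h3, h⟩ | ⟨h3, h⟩
      · simp only [ho, h, mul_one, h3, if_true, sq_abs]
      · simp only [ho, h, mul_zero, h3, if_false, zero_mul]
    rw [h1] at hG
    have h2 := (abs_le.mp hs3).1
    have h3 := hs4 N (by omega) f hf
    have h4 : ∑ i ∈ t.filter (fun i => co (f i) N = 1), om (f i) * S i ^ 2 -
        ∑ i ∈ t.filter (fun i => co (f i) N = 1), om (f i) * Hd A c (la (f i)) ≤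
        ∑ i, om (f i) * |S i ^ 2 - Hd A c (la (f i))| := by
      rw [← Finset.sum_sub_distrib]
      calc _ ≤ ∑ i ∈ t.filter (fun i => co (f i) N = 1),
            om (f i) * |S i ^ 2 - Hd A c (la (f i))| := by
            apply Finset.sum_le_sum
            intro i _
            rw [← mul_sub]
            exact mul_le_mul_of_nonneg_left (le_abs_self _) (fib_om _)
        _ ≤ _ := Finset.sum_le_sum_of_subset_of_nonneg (Finset.subset_univ _)
            fun i _ _ => mul_nonneg (fib_om _) (abs_nonneg _)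
    linarith

end Pool.Agent.TK
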